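import Pool.Agent.N290.RI.Stm

/-!
# Riccati recursion for the corona problem on the ball of `ℂ²`: the kernel is locally bounded in `L¹`
-/

set_option autoImplicit false

open Complex MeasureTheory Set Filter Topology
open scoped ENNReal

namespace Pool.Agent.N738.RI

open Pool.Agent.N290.RI hiding ker

noncomputable section

/-- The formula for `Dl`. -/
theorem Dl_eq (z w : ℂ × ℂ) : Dl z w = (1 - N z) * N (w - z) + ‖ip z (w - z)‖ ^ 2 := by
  unfold Dl ip N
  simp only [Complex.sq_norm, Complex.normSq_apply, Prod.fst_sub, Prod.snd_sub, Complex.sub_re,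
    Complex.sub_im, Complex.add_re, Complex.add_im, Complex.mul_re, Complex.mul_im,
    Complex.conj_re, Complex.conj_im, Complex.one_re, Complex.one_im]
  ring

theorem Dl_ge (z w : ℂ × ℂ) : (1 - N z) * N (w - z) ≤ Dl z w := by
  rw [Dl_eq]
  have := sq_nonneg ‖ip z (w - z)‖
  linarith

theorem norm_le_nm (z : ℂ × ℂ) : ‖z‖ ≤ nm z := by
  unfold nm
  apply Real.le_sqrt_of_sq_le
  unfold N
  rw [Prod.norm_def]
  rcases max_choice ‖z.1‖ ‖z.2‖ with h | h <;> rw [h]
  · have := sq_nonneg ‖z.2‖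
    linarith
  · have := sq_nonneg ‖z.1‖
    linarith

theorem ker_le {c : ℝ} (hc : 0 < c) (z w : ℂ × ℂ) (hz : c ^ 2 ≤ 1 - N z) :
    Pool.Agent.N290.RI.ker z w ≤ 1 / (c * ‖w - z‖) ^ 3 := by
  unfold Pool.Agent.N290.RI.ker
  by_cases h : w = z
  · subst h
    have h0 : Dl w w = 0 := by
      rw [Dl_eq, sub_self]
      simp [N, ip]
    rw [h0]
    simp
  · have hn : 0 < ‖w - z‖ := norm_pos_iff.2 (sub_ne_zero.2 h)
    have h1 : c * ‖w - z‖ ≤ Real.sqrt (Dl z w) := by
      apply Real.le_sqrt_of_sq_le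
      refine le_trans ?_ (Dl_ge z w)
      rw [mul_pow]
      have h2 : ‖w - z‖ ^ 2 ≤ N (w - z) := by
        rw [← nm_sq]
        exact pow_le_pow_left₀ (norm_nonneg _) (norm_le_nm _) 2
      have h3 := N_nonneg (w - z)
      exact mul_le_mul hz h2 (by positivity) ((sq_nonneg c).trans hz)
    apply one_div_le_one_div_of_le (by positivity)
    exact pow_le_pow_left₀ (by positivity) h1 3

theorem haar : (volume : Measure (ℂ × ℂ)).IsAddHaarMeasure := by
  rw [Measure.volume_eq_prod]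
  infer_instance

theorem int_ball {c : ℝ} (hc : 0 < c) :
    IntegrableOn (fun u : ℂ × ℂ => 1 / (c * ‖u‖) ^ 3) (Metric.ball 0 2) := by
  have := haar
  rw [integrableOn_fun_norm_addHaar (volume : Measure (ℂ × ℂ)) (f := fun y : ℝ => 1 / (c * y) ^ 3)]
  have hd : Module.finrank ℝ (ℂ × ℂ) - 1 = 3 := by
    rw [Module.finrank_prod, Complex.finrank_real_complex]
  rw [hd]
  have h1 : IntegrableOn (fun _ : ℝ => 1 / c ^ 3) (Ioo (0 : ℝ) 2) := by
    apply integrableOn_const
    · rw [Real.volume_Ioo]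
      exact ENNReal.ofReal_ne_top
    · simp
  refine h1.congr_fun ?_ measurableSet_Ioo
  intro y hy
  have hy0 : 0 < y := hy.1
  simp only [smul_eq_mul]
  field_simp

/-- **C8.** -/
theorem C8_proof : C8 := by
  intro r hr0 hr1
  have := haar
  obtain ⟨c, hc⟩ : ∃ c, c = Real.sqrt (1 - r ^ 2) := ⟨_, rfl⟩
  have hr2 : 0 < 1 - r ^ 2 := by nlinarith
  have hc0 : 0 < c := by
    rw [hc]
    exact Real.sqrt_pos.2 hr2
  have hc2 : c ^ 2 = 1 - r ^ 2 := by
    rw [hc]
    exact Real.sq_sqrt hr2.le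
  have hI := int_ball hc0
  have hfin : ∫⁻ u in Metric.ball (0 : ℂ × ℂ) 2, ENNReal.ofReal (1 / (c * ‖u‖) ^ 3) ≠ ⊤ := by
    have h1 := hI.2
    rw [hasFiniteIntegral_iff_ofReal (Filter.Eventually.of_forall fun u => by positivity)] at h1
    exact h1.ne
  refine ⟨(∫⁻ u in Metric.ball (0 : ℂ × ℂ) 2, ENNReal.ofReal (1 / (c * ‖u‖) ^ 3)).toReal, ?_⟩
  intro z hz
  rw [ENNReal.ofReal_toReal hfin]
  have hz2 : c ^ 2 ≤ 1 - N z := by
    rw [hc2, ← nm_sq]
    have := pow_le_pow_left₀ (nm_nonneg z) hz 2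
    linarith
  have hz1 : ‖z‖ < 1 := lt_of_le_of_lt ((norm_le_nm z).trans hz) hr1
  calc ∫⁻ w in B, ENNReal.ofReal (Pool.Agent.N290.RI.ker z w)
      ≤ ∫⁻ w in B, (Metric.ball (0 : ℂ × ℂ) 2).indicator
          (fun u => ENNReal.ofReal (1 / (c * ‖u‖) ^ 3)) (w - z) := by
        refine setLIntegral_mono' B_meas fun w hw => ?_
        have hw1 : ‖w‖ < 1 := lt_of_le_of_lt (norm_le_nm w) (mem_B_nm.1 hw)
        have hwz : w - z ∈ Metric.ball (0 : ℂ × ℂ) 2 := by
          rw [mem_ball_zero_iff]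
          have := norm_sub_le w z
          linarith
        rw [indicator_of_mem hwz]
        exact ENNReal.ofReal_le_ofReal (ker_le hc0 z w hz2)
    _ ≤ ∫⁻ w, (Metric.ball (0 : ℂ × ℂ) 2).indicator
          (fun u => ENNReal.ofReal (1 / (c * ‖u‖) ^ 3)) (w - z) := setLIntegral_le_lintegral _ _
    _ = ∫⁻ u, (Metric.ball (0 : ℂ × ℂ) 2).indicator
          (fun u => ENNReal.ofReal (1 / (c * ‖u‖) ^ 3)) u :=
        lintegral_sub_right_eq_self (fun u => (Metric.ball (0 : ℂ × ℂ) 2).indicator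
          (fun u => ENNReal.ofReal (1 / (c * ‖u‖) ^ 3)) u) z
    _ = _ := lintegral_indicator measurableSet_ball _

end

end Pool.Agent.N738.RI
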